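import Pool.Agent.helper17.EXC.Spec

set_option autoImplicit false

open Finset

namespace Pool.Agent.EXC

theorem FL0_mem (F K : Type) [Field F] [Fintype F] [Field K] [Algebra F K] (x : K) (hx : x ^ Fintype.card F = x) :
    ∃ c : F, x = algebraMap F K c := by
  have hq : 1 < Fintype.card F := Fintype.one_lt_card
  have hne : (Polynomial.X ^ Fintype.card F - Polynomial.X : Polynomial F) ≠ 0 := FiniteField.X_pow_card_sub_X_ne_zero F hq
  have hs : (Polynomial.X ^ Fintype.card F - Polynomial.X : Polynomial F).Splits := by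
    rw [Polynomial.splits_iff_card_roots, FiniteField.roots_X_pow_card_sub_X, FiniteField.X_pow_card_sub_X_natDegree_eq F hq]
    rfl
  have hneK : ((Polynomial.X ^ Fintype.card F - Polynomial.X : Polynomial F).map (algebraMap F K)) ≠ 0 :=
    (Polynomial.map_ne_zero_iff (algebraMap F K).injective).2 hne
  have hroot : x ∈ ((Polynomial.X ^ Fintype.card F - Polynomial.X : Polynomial F).map (algebraMap F K)).roots := by
    rw [Polynomial.mem_roots hneK, Polynomial.IsRoot.def]
    simp [hx]
  rw [hs.roots_map (algebraMap F K), Multiset.mem_map] at hroot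
  obtain ⟨c, _, hc⟩ := hroot
  exact ⟨c, hc.symm⟩

theorem FL0 : FL0_stmt := by
  intro F K _ _ _ _ _ r hr hrq
  classical
  let _ : Fintype F := Fintype.ofFinite F
  have hcard : Nat.card F = Fintype.card F := Nat.card_eq_fintype_card
  rw [hcard] at hrq ⊢
  obtain ⟨p, hp⟩ := CharP.exists F
  obtain ⟨n, hpp, hn⟩ := FiniteField.card F p
  have : Fact p.Prime := ⟨hpp⟩
  have : CharP K p := charP_of_injective_algebraMap (algebraMap F K).injective p
  have hr0 : ((r : ℕ) : K) ≠ 0 := by
    intro h0
    have h1 : p ∣ r := (CharP.cast_eq_zero_iff K p r).1 h0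
    have h2 : p = r := (Nat.prime_dvd_prime_iff_eq hpp hr).1 h1
    apply hrq
    rw [hn, ← h2]
    exact dvd_pow_self p n.ne_zero
  refine ⟨?_, ?_, ?_, ?_⟩
  · have : NeZero ((r : ℕ) : K) := ⟨hr0⟩
    exact HasEnoughRootsOfUnity.exists_primitiveRoot K r
  · intro x hx
    exact FL0_mem F K x hx
  · intro x y
    rw [hn]
    exact add_pow_char_pow x y p n
  · intro ζ hζ hrq1 m c hc
    have hζ0 : ζ ≠ 0 := hζ.ne_zero hr.ne_zero
    have hc0 : c ≠ 0 := by
      rintro rfl
      rw [map_zero] at hc
      exact pow_ne_zero m hζ0 hc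
    have h1 : ζ ^ (m * (Fintype.card F - 1)) = 1 := by
      rw [pow_mul, hc, ← map_pow, FiniteField.pow_card_sub_one_eq_one c hc0, map_one]
    have h2 : r ∣ m * (Fintype.card F - 1) := (hζ.pow_eq_one_iff_dvd _).1 h1
    exact (hr.dvd_mul.1 h2).resolve_right hrq1

end Pool.Agent.EXC
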